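import Pool.Agent.W307.FK.Stm
import Pool.Agent.W307.RS.MainK

/-!
# FK-AVGF: the second moment of the 2-Selmer groups over the coprime pairs of a short square
-/

set_option autoImplicit false

namespace Pool.Agent.W612.FK

open Finset Pool.Agent.W262.RK Pool.Agent.W307.RT Pool.Agent.W307.RS Pool.Agent.W307.SE
  Pool.Agent.W307.FK

lemma fF0 (u v : ℤ) : fF u v 0 = u := by simp [fF, fv, αF, βF]

lemma fF1 (u v : ℤ) : fF u v 1 = 2 * u + v := by simp [fF, fv, αF, βF]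

lemma fF2 (u v : ℤ) : fF u v 2 = -u - v := by
  simp [fF, fv, αF, βF]
  ring

lemma two_dvd {u v : ℤ} (p : ℤ) (j l : Fin 3) (hjl : j ≠ l) (h1 : p ∣ fF u v j)
    (h2 : p ∣ fF u v l) : p ∣ u ∧ p ∣ v := by
  have h01 : ∀ a b : ℤ, p ∣ fF a b 0 → p ∣ fF a b 1 → p ∣ a ∧ p ∣ b := by
    intro a b h1 h2
    rw [fF0] at h1
    rw [fF1] at h2
    exact ⟨h1, (dvd_add_right (Dvd.dvd.mul_left h1 2)).1 h2⟩
  have h02 : ∀ a b : ℤ, p ∣ fF a b 0 → p ∣ fF a b 2 → p ∣ a ∧ p ∣ b := by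
    intro a b h1 h2
    rw [fF0] at h1
    rw [fF2] at h2
    refine ⟨h1, ?_⟩
    have h3 := dvd_add h1 h2
    have h4 : a + (-a - b) = -b := by ring
    rw [h4] at h3
    exact (dvd_neg).1 h3
  have h12 : ∀ a b : ℤ, p ∣ fF a b 1 → p ∣ fF a b 2 → p ∣ a ∧ p ∣ b := by
    intro a b h1 h2
    rw [fF1] at h1
    rw [fF2] at h2
    have h3 := dvd_add h1 h2
    have h4 : 2 * a + b + (-a - b) = a := by ring
    rw [h4] at h3
    exact ⟨h3, (dvd_add_right (Dvd.dvd.mul_left h3 2)).1 h1⟩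
  fin_cases j <;> fin_cases l
  · exact absurd rfl hjl
  · exact h01 u v h1 h2
  · exact h02 u v h1 h2
  · exact h01 u v h2 h1
  · exact absurd rfl hjl
  · exact h12 u v h1 h2
  · exact h02 u v h2 h1
  · exact h12 u v h2 h1
  · exact absurd rfl hjl

lemma gd_fF (z : ℕ) {u v : ℤ} (huv : IsCoprime u v) (h0 : ∀ j, fF u v j ≠ 0) : Gd z (fF u v) := by
  refine ⟨h0, fun p hp _ j l hjl h => ?_⟩
  have hpi : Prime (p : ℤ) := Nat.prime_iff_prime_int.1 hp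
  obtain ⟨h3, h4⟩ := two_dvd (p : ℤ) j l hjl h.1 h.2
  exact hpi.not_isUnit (huv.isUnit_of_dvd' h3 h4)

lemma fF_size {u v : ℤ} {M : ℕ} (hu : u.natAbs ≤ M) (hv : v.natAbs ≤ M) (j : Fin 3) :
    (fF u v j).natAbs ≤ 3 * M := by
  fin_cases j
  · show (fF u v 0).natAbs ≤ 3 * M
    rw [fF0]
    omega
  · show (fF u v 1).natAbs ≤ 3 * M
    rw [fF1]
    omega
  · show (fF u v 2).natAbs ≤ 3 * M
    rw [fF2]
    omega

/-- the parameters -/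
def Th (B : ℕ) : Type :=
  {θ : ℤ × ℤ × ℤ × ℕ // θ.1 ≠ 0 ∧ 1 ≤ θ.2.2.2 ∧ θ.2.1.natAbs ≤ θ.2.2.2 ^ B ∧
    θ.2.2.1.natAbs ≤ θ.2.2.2 ^ B}

open Classical in
/-- the pairs -/
noncomputable def TS (N1 N2 : ℤ) (X : ℕ) : Finset (ℕ × ℕ) :=
  (Icc 1 X ×ˢ Icc 1 X).filter (fun t : ℕ × ℕ =>
      IsCoprime (N1 + (t.1 : ℤ)) (N2 + (t.2 : ℤ)) ∧
      ∀ j, fF (N1 + (t.1 : ℤ)) (N2 + (t.2 : ℤ)) j ≠ 0)

/-- the summand -/
noncomputable def RR (D N1 N2 : ℤ) (t : ℕ × ℕ) : ℝ :=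
  ((Sel (D * fF (N1 + (t.1 : ℤ)) (N2 + (t.2 : ℤ)) 0)
      (D * fF (N1 + (t.1 : ℤ)) (N2 + (t.2 : ℤ)) 1)).ncard : ℝ) ^ 2

lemma RR_nonneg (D N1 N2 : ℤ) (t : ℕ × ℕ) : 0 ≤ RR D N1 N2 t := by
  unfold RR
  positivity

/-- the bound for one curve -/
lemma one_le (h1 : SELF) (M : ℕ) (hM : 1 ≤ M) (D u v : ℤ) (hD : D ≠ 0) (huv : IsCoprime u v)
    (h0 : ∀ j, fF u v j ≠ 0) (hs : ∀ j, (fF u v j).natAbs ≤ M) :
    ((Sel (D * fF u v 0) (D * fF u v 1)).ncard : ℝ) ≤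
      4 ^ 4 * 64 ^ M * 8 ^ D.natAbs.primeFactors.card := by
  have h := (h1 (fF u v) D 2 1 M M 1 le_rfl hD (gd_fF 2 huv h0)
    (by rw [fF0, fF1, fF2]; ring) (fun j => by rw [pow_one]; exact hs j) hM le_rfl
    (by
      have : M < 2 ^ M := Nat.lt_two_pow_self
      simpa using this)).2
  have hPS : PS 2 1 = ∅ := by
    unfold PS
    rw [Ioc_eq_empty (by omega)]
    simp
  have hS2 : ∀ j, S2 2 1 (fF u v) j = 1 := by
    intro j
    unfold S2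
    rw [hPS]
    simp
  have hS1 : ∀ j, S1 2 1 (fF u v) j = 1 := by
    intro j
    unfold S1
    rw [hPS]
    simp
  have hNL : ∀ L : ℕ → Bool → Bool → Bool → Bool → Prop,
      NL (∏ j, S1 2 1 (fF u v) j) L ≤ 1 := by
    intro L
    have e : (∏ j, S1 2 1 (fF u v) j) = 1 := prod_eq_one fun j _ => hS1 j
    rw [e]
    classical
    unfold NL
    refine le_trans (card_le_card (filter_subset _ _)) ?_
    simp
  have hsum : (∑ j, (S2 2 1 (fF u v) j).primeFactors.card) = 0 :=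
    sum_eq_zero fun j _ => by rw [hS2 j]; simp
  rw [hsum] at h
  have h2 : (Sel (D * fF u v 0) (D * fF u v 1)).ncard ≤
      4 ^ 4 * 64 ^ M * 8 ^ D.natAbs.primeFactors.card := by
    refine h.trans ?_
    calc 4 ^ (2 + 2) * 8 ^ D.natAbs.primeFactors.card * ((4 ^ 1) ^ Fintype.card (Fin 3)) ^ M *
        4 ^ 0 * NL (∏ j, S1 2 1 (fF u v) j) (LF (S1 2 1 (fF u v))
          (sgF (D * fF u v 0) (D * fF u v 1) (∏ j, S1 2 1 (fF u v) j)))
        ≤ 4 ^ (2 + 2) * 8 ^ D.natAbs.primeFactors.card * ((4 ^ 1) ^ Fintype.card (Fin 3)) ^ M *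
        4 ^ 0 * 1 := Nat.mul_le_mul_left _ (hNL _)
      _ = 4 ^ 4 * 64 ^ M * 8 ^ D.natAbs.primeFactors.card := by
        rw [Fintype.card_fin]
        norm_num
        ring
  exact_mod_cast h2

lemma RR_small (h1 : SELF) (M : ℕ) (hM : 1 ≤ M) (D N1 N2 : ℤ) (t : ℕ × ℕ) (hD : D ≠ 0)
    (huv : IsCoprime (N1 + (t.1 : ℤ)) (N2 + (t.2 : ℤ)))
    (h0 : ∀ j, fF (N1 + (t.1 : ℤ)) (N2 + (t.2 : ℤ)) j ≠ 0)
    (hs : ∀ j, (fF (N1 + (t.1 : ℤ)) (N2 + (t.2 : ℤ)) j).natAbs ≤ M) :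
    RR D N1 N2 t ≤ (4 ^ 4 * 64 ^ M) ^ 2 * 128 ^ D.natAbs.primeFactors.card := by
  have h := one_le h1 M hM D _ _ hD huv h0 hs
  unfold RR
  refine (pow_le_pow_left₀ (Nat.cast_nonneg _) h 2).trans ?_
  rw [mul_pow]
  refine mul_le_mul_of_nonneg_left ?_ (by positivity)
  rw [← pow_mul, mul_comm, pow_mul]
  exact pow_le_pow_left₀ (by norm_num) (by norm_num) _

/-- FK-AVGF -/
theorem avgf_of (h1 : Pool.Agent.W307.FK.SELF) (h2 : Pool.Agent.W307.FK.CNTF)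
    (h3 : Pool.Agent.W307.FK.MAF) (h4 : Pool.Agent.W307.FK.SUBF) : Pool.Agent.W307.FK.AVGF := by
  intro B
  have hant : ANTU := Pool.Agent.W307.RS.antu
  obtain ⟨n, hn⟩ : ∃ n, n = Fintype.card (Fin 3) := ⟨_, rfl⟩
  have hn3 : n = 3 := by rw [hn, Fintype.card_fin]
  obtain ⟨z0, hz0⟩ := h3
  obtain ⟨z, hz⟩ : ∃ z, z = z0 + 8 := ⟨_, rfl⟩
  have hz2 : 2 ≤ z := by omega
  have hzn : 2 * Fintype.card (Fin 3) + 2 ≤ z := by rw [Fintype.card_fin]; omega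
  obtain ⟨C', hC'⟩ := hz0 z (by omega)
  obtain ⟨C, K, y0, hC0, hK1, hcn⟩ := h2 z B hzn
  obtain ⟨y1, hy1⟩ : ∃ y1, y1 = y0 + 6 := ⟨_, rfl⟩
  suffices key : ∃ C2 : ℝ, ∀ θ : Th B,
      ∑ t ∈ TS θ.1.2.1 θ.1.2.2.1 θ.1.2.2.2, RR θ.1.1 θ.1.2.1 θ.1.2.2.1 t ≤
        C2 * (128 ^ θ.1.1.natAbs.primeFactors.card * (θ.1.2.2.2 : ℝ) ^ 2) by
    obtain ⟨C2, hC2⟩ := key
    refine ⟨max C2 0, le_max_right _ _, fun D N1 N2 X hD hX hN1 hN2 => ?_⟩
    have h5 := hC2 ⟨(D, N1, N2, X), hD, hX, hN1, hN2⟩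
    have e : TS N1 N2 X = (Icc 1 X ×ˢ Icc 1 X).filter (fun t : ℕ × ℕ =>
      IsCoprime (N1 + (t.1 : ℤ)) (N2 + (t.2 : ℤ)) ∧
      ∀ j, fF (N1 + (t.1 : ℤ)) (N2 + (t.2 : ℤ)) j ≠ 0) := by
      unfold TS
      congr
    rw [← e]
    refine h5.trans ?_
    show C2 * (128 ^ D.natAbs.primeFactors.card * (X : ℝ) ^ 2) ≤ _
    rw [mul_assoc]
    exact mul_le_mul_of_nonneg_right (le_max_left _ _) (by positivity)
  refine hant (Fin 3) (ℕ × ℕ) (Th B) (fun θ => TS θ.1.2.1 θ.1.2.2.1 θ.1.2.2.2)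
    (fun θ => θ.1.2.2.2)
    (fun θ t => fF (θ.1.2.1 + (t.1 : ℤ)) (θ.1.2.2.1 + (t.2 : ℤ)))
    (fun θ => 128 ^ θ.1.1.natAbs.primeFactors.card * (θ.1.2.2.2 : ℝ) ^ 2) z (NF 2)
    (fun θ t => RR θ.1.1 θ.1.2.1 θ.1.2.2.1 t) (4 ^ 2)
    (C * (4 ^ (z + 2)) ^ 2) C' (((4 ^ (B + 2)) ^ n) ^ 2) K y1 hzn (fun θ => θ.2.2.1)
    (fun θ => by positivity) (fun X0 => ?_)
    (fun θ ω hω => ?_) (fun s => ?_) (fun θ t => RR_nonneg _ _ _ _) (by norm_num)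
    (by positivity)
    (one_le_pow₀ (one_le_pow₀ (one_le_pow₀ (by norm_num)))) hK1
    (fun y hy s e hse => h4 2 z y hz2 s e hse)
    hC' ?_
  · -- small scales
    obtain ⟨M, hM⟩ : ∃ M, M = 3 * (X0 ^ B + X0) + 1 := ⟨_, rfl⟩
    refine ⟨(4 ^ 4 * 64 ^ M) ^ 2, ?_⟩
    rintro ⟨⟨D, N1, N2, X⟩, hD, hX1, hN1, hN2⟩ hle
    simp only at hD hX1 hN1 hN2 hle ⊢
    have hXB : X ^ B ≤ X0 ^ B := Nat.pow_le_pow_left hle B
    have hb : ∀ t ∈ TS N1 N2 X, RR D N1 N2 t ≤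
        (4 ^ 4 * 64 ^ M) ^ 2 * 128 ^ D.natAbs.primeFactors.card := by
      intro t ht
      simp only [TS, mem_filter, mem_product, mem_Icc] at ht
      refine RR_small h1 M (by omega) D N1 N2 t hD ht.2.1 ht.2.2 fun j => ?_
      have h6 : (N1 + (t.1 : ℤ)).natAbs ≤ X0 ^ B + X0 := by
        have h61 : t.1 ≤ X := ht.1.1.2
        omega
      have h7 : (N2 + (t.2 : ℤ)).natAbs ≤ X0 ^ B + X0 := by
        have h71 : t.2 ≤ X := ht.1.2.2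
        omega
      have h8 := fF_size h6 h7 j
      omega
    have hcard : ((TS N1 N2 X).card : ℝ) ≤ (X : ℝ) ^ 2 := by
      have h6 : (TS N1 N2 X).card ≤ X ^ 2 := by
        unfold TS
        refine (card_filter_le _ _).trans ?_
        rw [card_product, Nat.card_Icc]
        simp only [Nat.add_sub_cancel]
        rw [pow_two]
      exact_mod_cast h6
    calc ∑ t ∈ TS N1 N2 X, RR D N1 N2 t
        ≤ ∑ _t ∈ TS N1 N2 X, (4 ^ 4 * 64 ^ M) ^ 2 * 128 ^ D.natAbs.primeFactors.card :=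
          sum_le_sum hb
      _ = ((TS N1 N2 X).card : ℝ) * ((4 ^ 4 * 64 ^ M) ^ 2 * 128 ^ D.natAbs.primeFactors.card) := by
          rw [sum_const, nsmul_eq_mul]
      _ ≤ (X : ℝ) ^ 2 * ((4 ^ 4 * 64 ^ M) ^ 2 * 128 ^ D.natAbs.primeFactors.card) :=
          mul_le_mul_of_nonneg_right hcard (by positivity)
      _ = _ := by ring
  · simp only [TS, mem_filter] at hω
    exact gd_fF z hω.2.1 hω.2.2
  · unfold NF
    exact mul_nonneg (by positivity) (sum_nonneg fun _ _ => pow_nonneg (Nat.cast_nonneg _) _)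
  -- the local majorant
  rintro ⟨⟨D, N1, N2, X⟩, hD, hX1, hN1, hN2⟩ y Y k hy0 hzy hyK hk s hs v hv u hu h8 T' hT' hval
  simp only at hD hX1 hN1 hN2 hyK hk h8 hT' hval ⊢
  have hy00 : y0 ≤ y := by omega
  have hyX : y ≤ X := le_trans (Nat.le_self_pow (by omega) y) hyK
  obtain ⟨ff, hff⟩ : ∃ ff : ℕ × ℕ → Fin 3 → ℤ,
    ff = fun t => fF (N1 + (t.1 : ℤ)) (N2 + (t.2 : ℤ)) := ⟨_, rfl⟩
  obtain ⟨sg, hsg⟩ : ∃ sg : ℕ × ℕ → Finset ℕ,
    sg = fun t => sgF (D * fF (N1 + (t.1 : ℤ)) (N2 + (t.2 : ℤ)) 0)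
        (D * fF (N1 + (t.1 : ℤ)) (N2 + (t.2 : ℤ)) 1) (∏ j, s j) := ⟨_, rfl⟩
  obtain ⟨g, hg⟩ : ∃ g : Finset ℕ → ℝ, g = fun E => (NL (∏ j, s j) (LF s E) : ℝ) ^ 2 := ⟨_, rfl⟩
  have hg0 : ∀ E, 0 ≤ g E := fun E => by rw [hg]; exact pow_nonneg (Nat.cast_nonneg _) _
  have h5 : ∀ t ∈ T', RR D N1 N2 t ≤
      (4 ^ (z + 2)) ^ 2 * (64 ^ D.natAbs.primeFactors.card * (((4 ^ (B + 2)) ^ n) ^ 2) ^ k) *
        (4 ^ 2) ^ (∑ j, (v j).primeFactors.card) * g (sg t) := by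
    intro t ht
    have htT := hT' ht
    simp only [TS, mem_filter, mem_product, mem_Icc] at htT
    obtain ⟨ht1, htc, ht0⟩ := htT
    obtain ⟨hts, htv, _⟩ := hval t ht
    have hsize : ∀ j, (fF (N1 + (t.1 : ℤ)) (N2 + (t.2 : ℤ)) j).natAbs ≤ X ^ (B + 2) := by
      intro j
      have e5 : X ^ B ≤ X ^ (B + 1) := Nat.pow_le_pow_right hX1 (by omega)
      have e6 : X ≤ X ^ (B + 1) := Nat.le_self_pow (by omega) X
      have h6 : (N1 + (t.1 : ℤ)).natAbs ≤ X ^ B + X := by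
        have h61 : t.1 ≤ X := ht1.1.2
        omega
      have h7 : (N2 + (t.2 : ℤ)).natAbs ≤ X ^ B + X := by
        have h71 : t.2 ≤ X := ht1.2.2
        omega
      calc (fF (N1 + (t.1 : ℤ)) (N2 + (t.2 : ℤ)) j).natAbs ≤ 3 * (X ^ B + X) := fF_size h6 h7 j
        _ ≤ 3 * (X ^ (B + 1) + X ^ (B + 1)) := Nat.mul_le_mul_left _ (Nat.add_le_add e5 e6)
        _ = 6 * X ^ (B + 1) := by ring
        _ ≤ X * X ^ (B + 1) := Nat.mul_le_mul_right _ (by omega)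
        _ = X ^ (B + 2) := by ring
    have hr := (h1 (fF (N1 + (t.1 : ℤ)) (N2 + (t.2 : ℤ))) D z y X k (B + 2) hz2 hD
      (gd_fF z htc ht0) (by rw [fF0, fF1, fF2]; ring) hsize hX1 (by omega) hk).2
    rw [hts, htv, ← hn] at hr
    have hr' : ((Sel (D * fF (N1 + (t.1 : ℤ)) (N2 + (t.2 : ℤ)) 0)
        (D * fF (N1 + (t.1 : ℤ)) (N2 + (t.2 : ℤ)) 1)).ncard : ℝ) ≤
        4 ^ (z + 2) * 8 ^ D.natAbs.primeFactors.card * ((4 ^ (B + 2)) ^ n) ^ k *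
          4 ^ (∑ j, (v j).primeFactors.card) * (NL (∏ j, s j) (LF s (sg t)) : ℝ) := by
      rw [hsg]
      exact_mod_cast hr
    unfold RR
    refine (pow_le_pow_left₀ (Nat.cast_nonneg _) hr' 2).trans (le_of_eq ?_)
    rw [hg]
    simp only [mul_pow]
    have e1 : ((8 : ℝ) ^ D.natAbs.primeFactors.card) ^ 2 = 64 ^ D.natAbs.primeFactors.card := by
      rw [← pow_mul, mul_comm, pow_mul]
      norm_num
    have e2 : ((((4 : ℝ) ^ (B + 2)) ^ n) ^ k) ^ 2 = (((4 ^ (B + 2)) ^ n) ^ 2) ^ k := by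
      rw [← pow_mul, mul_comm, pow_mul]
    have e3 : ((4 : ℝ) ^ (∑ j, (v j).primeFactors.card)) ^ 2 =
        (4 ^ 2) ^ (∑ j, (v j).primeFactors.card) := by
      rw [← pow_mul, mul_comm, pow_mul]
    rw [e1, e2, e3]
    ring
  have hneg : ∀ t ∈ T', sg t ∈ (∏ j, s j).primeFactors.powerset := by
    intro t _
    rw [mem_powerset, hsg]
    exact filter_subset _ _
  have h6 : ∑ t ∈ T', g (sg t) =
      ∑ E ∈ (∏ j, s j).primeFactors.powerset,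
        ((T'.filter (fun t => sg t = E)).card : ℝ) * g E := by
    rw [← sum_fiberwise_of_maps_to hneg]
    refine sum_congr rfl fun E _ => ?_
    rw [← nsmul_eq_mul, ← sum_const]
    refine sum_congr rfl fun t ht => ?_
    rw [(mem_filter.1 ht).2]
  obtain ⟨Q, hQ⟩ : ∃ Q : ℝ, Q = C * 2 ^ D.natAbs.primeFactors.card * X ^ 2 *
        (1 / 2) ^ (∏ j, s j).primeFactors.card *
        (∏ j, gw 1 n (s j)) * (∏ j, gw 1 n (v j) / v j) * (∏ j, 1 / (u j : ℝ)) /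
        (Real.log y) ^ n := ⟨_, rfl⟩
  have h7 : ∀ E ∈ (∏ j, s j).primeFactors.powerset,
      ((T'.filter (fun t => sg t = E)).card : ℝ) * g E ≤ Q * g E := by
    intro E _
    refine mul_le_mul_of_nonneg_right ?_ (hg0 E)
    have h9 := hcn D N1 N2 X y Y hD hN1 hN2 hy00 hzy hyK s hs v hv u hu h8 E
    rw [← hn, ← hQ] at h9
    refine le_trans ?_ h9
    refine Nat.cast_le.2 (card_le_card fun t ht => ?_)
    rw [mem_filter] at ht
    rw [mem_filter]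
    obtain ⟨ht', htE⟩ := ht
    obtain ⟨hts, htv, htu⟩ := hval t ht'
    have htT := hT' ht'
    simp only [TS, mem_filter] at htT
    rw [hsg] at htE
    exact ⟨htT.1, htT.2.1, hts, htv, htu, htE⟩
  calc ∑ t ∈ T', RR D N1 N2 t
      ≤ ∑ t ∈ T', (4 ^ (z + 2)) ^ 2 *
          (64 ^ D.natAbs.primeFactors.card * (((4 ^ (B + 2)) ^ n) ^ 2) ^ k) *
        (4 ^ 2) ^ (∑ j, (v j).primeFactors.card) * g (sg t) := sum_le_sum h5
    _ = (4 ^ (z + 2)) ^ 2 *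
          (64 ^ D.natAbs.primeFactors.card * (((4 ^ (B + 2)) ^ n) ^ 2) ^ k) *
        (4 ^ 2) ^ (∑ j, (v j).primeFactors.card) *
          ∑ E ∈ (∏ j, s j).primeFactors.powerset,
            ((T'.filter (fun t => sg t = E)).card : ℝ) * g E := by
        rw [← mul_sum, h6]
    _ ≤ (4 ^ (z + 2)) ^ 2 *
          (64 ^ D.natAbs.primeFactors.card * (((4 ^ (B + 2)) ^ n) ^ 2) ^ k) *
        (4 ^ 2) ^ (∑ j, (v j).primeFactors.card) *
          ∑ E ∈ (∏ j, s j).primeFactors.powerset, Q * g E :=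
        mul_le_mul_of_nonneg_left (sum_le_sum h7) (by positivity)
    _ = _ := by
        have e1 : NF 2 s = (1 / 2) ^ (∏ j, s j).primeFactors.card *
            ∑ E ∈ (∏ j, s j).primeFactors.powerset, g E := by
          rw [hg]
          rfl
        have e2 : (∏ j, ((4 : ℝ) ^ 2) ^ (v j).primeFactors.card * (gw 1 n (v j) / v j)) =
            (4 ^ 2) ^ (∑ j, (v j).primeFactors.card) * ∏ j, (gw 1 n (v j) / v j) := by
          rw [prod_mul_distrib, prod_pow_eq_pow_sum]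
        have e3 : (128 : ℝ) ^ D.natAbs.primeFactors.card =
            64 ^ D.natAbs.primeFactors.card * 2 ^ D.natAbs.primeFactors.card := by
          rw [← mul_pow]
          norm_num
        rw [← hn, ← mul_sum, e1, e2, hQ, e3]
        ring

end Pool.Agent.W612.FK
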